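import Pool.Agent.MTN.Stmts
import Pool.Agent.Helper43_MT100G.Bas
import Pool.Agent.Helper64_MTD.Vag

/-!
# MTN, row FSC: formal relations persist at all complex points of large absolute value
-/

set_option autoImplicit false

namespace Pool.Agent.MTN.H29

open Matrix Polynomial Pool.Agent.MT100 Pool.Agent.MT100G Pool.Agent.MT100A Pool.Agent.MT100D
  Pool.Agent.Helper78_MT Pool.Agent.MTL Pool.Agent.MTN

variable {d : Type} [Fintype d] [DecidableEq d]

/-- the inverse of `ed δ ζ * eN N ζ` -/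
theorem rho_inv (F : Family d) (ζ : ℂ) :
    (ed F.δ ζ * eN F.N ζ) * (eN F.N (-ζ) * ed F.δ (-ζ)) = 1 := by
  have h0 : ed F.δ (0 : ℂ) = 1 := by
    unfold ed
    rw [← Matrix.diagonal_one]
    congr 1
    funext i
    rw [mul_zero, Complex.exp_zero]
  calc (ed F.δ ζ * eN F.N ζ) * (eN F.N (-ζ) * ed F.δ (-ζ))
      = ed F.δ ζ * (eN F.N ζ * eN F.N (-ζ)) * ed F.δ (-ζ) := by simp only [Matrix.mul_assoc]
    _ = 1 := by
      rw [MT100G.H43.eN_mul_neg F.N F.sys.nil ζ, Matrix.mul_one, MT100D.H64.ed_addV,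
        add_neg_cancel, h0]

/-- entrywise differentiability -/
def DM (A : ℂ → Matrix d d ℂ) (z : ℂ) : Prop :=
  ∀ i j, DifferentiableAt ℂ (fun ζ => A ζ i j) z

omit [DecidableEq d] in
theorem dm_mul {A B : ℂ → Matrix d d ℂ} {z : ℂ} (hA : DM A z) (hB : DM B z) :
    DM (fun ζ => A ζ * B ζ) z := by
  intro i j
  have h : (fun ζ => (A ζ * B ζ) i j) = fun ζ => ∑ k, A ζ i k * B ζ k j := by
    funext ζ
    rw [Matrix.mul_apply]
  rw [h]
  exact DifferentiableAt.fun_sum fun k _ => (hA i k).mul (hB k j)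

omit [Fintype d] [DecidableEq d] in
theorem dm_const (C : Matrix d d ℂ) (z : ℂ) : DM (fun _ => C) z :=
  fun _ _ => differentiableAt_const _

omit [Fintype d] in
theorem dm_ed (δ : d → ℚ) {f : ℂ → ℂ} {z : ℂ} (hf : DifferentiableAt ℂ f z) :
    DM (fun ζ => ed δ (f ζ)) z := by
  intro i j
  have h : (fun ζ => ed δ (f ζ) i j) =
      fun ζ => if i = j then Complex.exp ((δ i : ℂ) * f ζ) else 0 := by
    funext ζ
    unfold ed
    rw [Matrix.diagonal_apply]
  rw [h]
  by_cases hij : i = j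
  · simp only [if_pos hij]
    exact (hf.const_mul _).cexp
  · simp only [if_neg hij]
    exact differentiableAt_const _

theorem dm_eN (N : Matrix d d ℤ) (hN : IsNilpotent N) {f : ℂ → ℂ} {z : ℂ}
    (hf : DifferentiableAt ℂ f z) : DM (fun ζ => eN N (f ζ)) z := by
  intro i j
  exact DifferentiableAt.comp z (MT100G.H43.eN_deriv N hN (f z) i j).differentiableAt hf

theorem real_pts (a : ℝ) (f : ℂ → ℂ) (h : ∀ t : ℝ, a < t → f t = 0) (b : ℝ) (hb : a < b) :
    ∃ᶠ z in nhdsWithin (b : ℂ) {(b : ℂ)}ᶜ, f z = 0 := by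
  have ht : Filter.Tendsto (fun n : ℕ => ((b + 1 / ((n : ℝ) + 1) : ℝ) : ℂ)) Filter.atTop
      (nhdsWithin (b : ℂ) {(b : ℂ)}ᶜ) := by
    rw [tendsto_nhdsWithin_iff]
    constructor
    · have h1 : Filter.Tendsto (fun n : ℕ => (b + 1 / ((n : ℝ) + 1) : ℝ)) Filter.atTop
          (nhds (b + 0)) := tendsto_const_nhds.add tendsto_one_div_add_atTop_nhds_zero_nat
      rw [add_zero] at h1
      exact (Complex.continuous_ofReal.tendsto b).comp h1
    · refine Filter.Eventually.of_forall fun n => ?_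
      have h2 : (0 : ℝ) < 1 / ((n : ℝ) + 1) := by positivity
      intro h3
      have h4 : (b + 1 / ((n : ℝ) + 1) : ℝ) = b := Complex.ofReal_injective h3
      linarith
  refine ht.frequently (Filter.Eventually.frequently (Filter.Eventually.of_forall fun n => ?_))
  refine h _ ?_
  have h2 : (0 : ℝ) < 1 / ((n : ℝ) + 1) := by positivity
  linarith

/-- FSC -/
theorem fsc (h1 : FsaDStmt) (h2 : VgcStmt) (h3 : TrgDStmt) : FscStmt := by
  intro d _ _ F
  obtain ⟨D, hD⟩ := h1 d F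
  refine ⟨D, fun ι _ _ κ hκ k => ?_⟩
  obtain ⟨R0, hR0⟩ := hD ι κ hκ k
  -- the bound for the values of the translates
  choose R1 hR1 using fun i : ι => h2 d F (κ i)
  -- the radii
  have hG : ∀ (i : ι) (a b : d), GType (F.T (κ i) a b) := by
    intro i
    obtain ⟨K', N', δ', q', B', h⟩ := h3 d F.H F.K F.N F.δ F.q F.B F.sys (κ i)
    exact h.gH
  choose r hr hrad using fun (x : ι × d × d) => MT100G.H43.gtype_near (hG x.1 x.2.1 x.2.2)
  obtain ⟨S1, hS1⟩ := (Set.finite_range R1).bddAbove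
  obtain ⟨S2, hS2⟩ := (Set.finite_range fun x : ι × d × d => (r x)⁻¹).bddAbove
  obtain ⟨R, hR⟩ : ∃ R : ℝ, R = max (max R0 S1) (max S2 1) := ⟨_, rfl⟩
  have hRpos : 0 < R := lt_of_lt_of_le one_pos
    (by rw [hR]; exact (le_max_right _ _).trans (le_max_right _ _))
  have hR0' : R0 ≤ R := by rw [hR]; exact (le_max_left _ _).trans (le_max_left _ _)
  have hR1' : ∀ i, R1 i ≤ R := fun i => (hS1 ⟨i, rfl⟩).trans
    (by rw [hR]; exact (le_max_right _ _).trans (le_max_left _ _))
  have hR2' : ∀ x, (r x)⁻¹ ≤ R := fun x => (hS2 ⟨x, rfl⟩).trans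
    (by rw [hR]; exact (le_max_left _ _).trans (le_max_right _ _))
  refine ⟨R, fun p hp w hw g hg => ?_⟩
  -- the function
  obtain ⟨Ψ, hΨ⟩ : ∃ Ψ : ℂ → ℂ, Ψ = fun ζ => ∑ β, ∑ α,
      (p β α).eval₂ (algebraMap ℚ ℂ) (Complex.exp (-ζ)) *
        ∏ s : ι × Fin k, (((F.T (κ s.1)).map (fun f => evC f (Complex.exp (-ζ)))) *
          ((eN F.N (-ζ) * ed F.δ (-ζ)) * (g s.1 * (ed F.δ ζ * eN F.N ζ)))) (β s) (α s) :=
    ⟨_, rfl⟩
  -- its values
  have hval : ∀ w : ℂ, R < ‖w‖ → Ψ (Complex.log w) = ∑ β, ∑ α,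
      (p β α).eval₂ (algebraMap ℚ ℂ) (w⁻¹) *
        ∏ s : ι × Fin k, (F.Y (w - κ s.1) * g s.1 * F.R w) (β s) (α s) := by
    intro w hw
    have hw0 : w ≠ 0 := norm_pos_iff.1 (hRpos.trans hw)
    have he : Complex.exp (-Complex.log w) = w⁻¹ := by rw [Complex.exp_neg, Complex.exp_log hw0]
    rw [hΨ]
    simp only [he]
    refine Finset.sum_congr rfl fun β _ => Finset.sum_congr rfl fun α _ => ?_
    congr 1
    refine Finset.prod_congr rfl fun s _ => ?_
    have hv : (F.T (κ s.1)).map (fun f => evC f w⁻¹) = F.Y (w - κ s.1) * F.R w :=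
      (hR1 s.1 w (lt_of_le_of_lt (hR1' s.1) hw)).symm
    have hρ : F.R w = ed F.δ (Complex.log w) * eN F.N (Complex.log w) := rfl
    rw [hv, ← hρ]
    have hi : F.R w * (eN F.N (-Complex.log w) * ed F.δ (-Complex.log w)) = 1 := by
      rw [hρ]
      exact rho_inv F _
    have hc : F.Y (w - κ s.1) * F.R w *
        (eN F.N (-Complex.log w) * ed F.δ (-Complex.log w) * (g s.1 * F.R w)) =
        F.Y (w - κ s.1) * g s.1 * F.R w := by
      calc F.Y (w - κ s.1) * F.R w *
            (eN F.N (-Complex.log w) * ed F.δ (-Complex.log w) * (g s.1 * F.R w))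
          = F.Y (w - κ s.1) * (F.R w * (eN F.N (-Complex.log w) * ed F.δ (-Complex.log w))) *
            (g s.1 * F.R w) := by simp only [Matrix.mul_assoc]
        _ = F.Y (w - κ s.1) * g s.1 * F.R w := by
          rw [hi, Matrix.mul_one, Matrix.mul_assoc]
    rw [hc]
  -- holomorphic
  have hdiff : ∀ ζ : ℂ, Real.log R < ζ.re → DifferentiableAt ℂ Ψ ζ := by
    intro z hz
    have hneg : DifferentiableAt ℂ (fun ζ : ℂ => -ζ) z := differentiableAt_id.neg
    have hexp : DifferentiableAt ℂ (fun ζ : ℂ => Complex.exp (-ζ)) z := hneg.cexp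
    have hT : ∀ s : ι × Fin k,
        DM (fun ζ => (F.T (κ s.1)).map (fun f => evC f (Complex.exp (-ζ)))) z := by
      intro s a b
      have hb : ‖Complex.exp (-z)‖ < r (s.1, a, b) := by
        rw [Complex.norm_exp, Complex.neg_re, Real.exp_neg]
        have h5 : R < Real.exp z.re := (Real.log_lt_iff_lt_exp hRpos).1 hz
        exact inv_lt_of_inv_lt₀ (hr _) (lt_of_le_of_lt (hR2' _) h5)
      exact DifferentiableAt.comp z (hrad (s.1, a, b) _ hb).2.2.differentiableAt hexp
    have hρ : DM (fun ζ => ed F.δ ζ * eN F.N ζ) z :=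
      dm_mul (dm_ed F.δ differentiableAt_id) (dm_eN F.N F.sys.nil differentiableAt_id)
    have hρ' : DM (fun ζ => eN F.N (-ζ) * ed F.δ (-ζ)) z :=
      dm_mul (dm_eN F.N F.sys.nil hneg) (dm_ed F.δ hneg)
    rw [hΨ]
    refine DifferentiableAt.fun_sum fun β _ => DifferentiableAt.fun_sum fun α _ => ?_
    refine DifferentiableAt.mul ?_ ?_
    · have h6 : (fun ζ : ℂ => (p β α).eval₂ (algebraMap ℚ ℂ) (Complex.exp (-ζ))) =
          fun ζ : ℂ => ((p β α).map (algebraMap ℚ ℂ)).eval (Complex.exp (-ζ)) := by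
        funext ζ
        rw [eval_map]
      rw [h6]
      exact DifferentiableAt.comp z ((p β α).map (algebraMap ℚ ℂ)).differentiable.differentiableAt
        hexp
    · refine DifferentiableAt.fun_finsetProd fun s _ => ?_
      exact dm_mul (hT s) (dm_mul hρ' (dm_mul (dm_const (g s.1) z) hρ)) (β s) (α s)
  -- real points
  have hreal : ∀ t : ℝ, Real.log R < t → Ψ (t : ℂ) = 0 := by
    intro t ht
    have h5 : R < Real.exp t := (Real.log_lt_iff_lt_exp hRpos).1 ht
    have h6 : Complex.log ((Real.exp t : ℝ) : ℂ) = t := by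
      rw [← Complex.ofReal_log (Real.exp_pos t).le, Real.log_exp]
    have h7 : R < ‖((Real.exp t : ℝ) : ℂ)‖ := by
      rw [Complex.norm_real, Real.norm_eq_abs, abs_of_pos (Real.exp_pos t)]
      exact h5
    rw [← h6, hval _ h7]
    exact hR0 p hp (Real.exp t) (lt_of_le_of_lt hR0' h5) g hg
  -- the identity theorem
  have hopen : IsOpen {ζ : ℂ | Real.log R < ζ.re} := isOpen_lt continuous_const Complex.continuous_re
  have hconn : IsPreconnected {ζ : ℂ | Real.log R < ζ.re} :=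
    (convex_halfSpace_re_gt (Real.log R)).isPreconnected
  have hanal : AnalyticOnNhd ℂ Ψ {ζ : ℂ | Real.log R < ζ.re} :=
    DifferentiableOn.analyticOnNhd (fun ζ hζ => (hdiff ζ hζ).differentiableWithinAt) hopen
  have hzero := hanal.eqOn_zero_of_preconnected_of_frequently_eq_zero hconn
    (z₀ := ((Real.log R + 1 : ℝ) : ℂ)) (by
      change Real.log R < (((Real.log R + 1 : ℝ) : ℂ)).re
      rw [Complex.ofReal_re]
      linarith) (real_pts (Real.log R) Ψ hreal _ (by linarith))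
  have hlw : Real.log R < (Complex.log w).re := by
    rw [Complex.log_re]
    exact Real.log_lt_log hRpos hw
  have hfin : Ψ (Complex.log w) = 0 := hzero hlw
  rw [hval w hw] at hfin
  exact hfin

end Pool.Agent.MTN.H29
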